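import Pool.Agent.helper84.WZ.SpecB

/-!
# Project wz, module QM
-/

set_option autoImplicit false

namespace WZ

open Filter

theorem QM_isClosed (e q : Ultrafilter W) (u d : ℤ × ℤ) : IsClosed (QQ e q u d) := by
  have h1 : IsClosed {p : Ultrafilter TW | p.map mo = e} := by
    have : {p : Ultrafilter TW | p.map mo = e} =
        ⋂ B : {B : Set W // B ∈ e}, {p : Ultrafilter TW | mo ⁻¹' B.1 ∈ p} := by
      ext p
      rw [Set.mem_ofPred_eq, Set.mem_iInter]
      constructor
      · rintro rfl B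
        exact B.2
      · intro h
        refine (Ultrafilter.coe_le_coe.1 ?_)
        intro B hB
        exact h ⟨B, hB⟩
    rw [this]
    exact isClosed_iInter fun B => ultrafilter_isClosed_basic _
  have h2 : IsClosed {p : Ultrafilter TW | ∀ A : Set (W × W),
    (∀ᶠ x in (e : Filter W), ∀ᶠ r in (q : Filter W), (x, r) ∈ A) →
      ∀ᶠ P in (p : Filter TW), ∀ (l : TW) (v v' : ℤ × ℤ) (r : TW),
        P = l * FreeMonoid.of (PL.m v v') * r →
          v = u ∧ (∃ t : ℤ, v' = u + t • d) ∧ (mo l, mo r) ∈ A} := by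
    have : {p : Ultrafilter TW | ∀ A : Set (W × W),
        (∀ᶠ x in (e : Filter W), ∀ᶠ r in (q : Filter W), (x, r) ∈ A) →
          ∀ᶠ P in (p : Filter TW), ∀ (l : TW) (v v' : ℤ × ℤ) (r : TW),
            P = l * FreeMonoid.of (PL.m v v') * r →
              v = u ∧ (∃ t : ℤ, v' = u + t • d) ∧ (mo l, mo r) ∈ A} =
        ⋂ A : {A : Set (W × W) //
            ∀ᶠ x in (e : Filter W), ∀ᶠ r in (q : Filter W), (x, r) ∈ A},
          {p : Ultrafilter TW | {P : TW | ∀ (l : TW) (v v' : ℤ × ℤ) (r : TW),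
            P = l * FreeMonoid.of (PL.m v v') * r →
              v = u ∧ (∃ t : ℤ, v' = u + t • d) ∧ (mo l, mo r) ∈ A.1} ∈ p} := by
      ext p
      rw [Set.mem_ofPred_eq, Set.mem_iInter]
      exact ⟨fun h A => h A.1 A.2, fun h A hA => h ⟨A, hA⟩⟩
    rw [this]
    exact isClosed_iInter fun A => ultrafilter_isClosed_basic _
  exact h1.inter h2

theorem QM_emb (hEM : EM_stmt) (e q : Ultrafilter W) (u d : ℤ × ℤ) :
    e.map emb ∈ QQ e q u d := by
  obtain ⟨hE1, -, hE3, -⟩ := hEM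
  refine ⟨?_, fun A hA => ?_⟩
  · rw [Ultrafilter.map_map]
    have : (mo : TW → W) ∘ (emb : W → TW) = id := by
      funext w
      exact hE1 w
    rw [this, Ultrafilter.map_id]
  · rw [Ultrafilter.coe_map, eventually_map]
    exact Eventually.of_forall fun w l v v' r h => absurd h (hE3 w l r v v')

theorem QM_mul (hUM : UM_stmt) (hEM : EM_stmt) (e q : Ultrafilter W) (u d : ℤ × ℤ)
    (he : MinE e) (hq : q * e = q) (p p' : Ultrafilter TW) (hp : p ∈ QQ e q u d)
    (hp' : p' ∈ QQ e q u d) : p * p' ∈ QQ e q u d := by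
  obtain ⟨-, -, -, hE4, -, hE6⟩ := hEM
  obtain ⟨hp1, hp2⟩ := hp
  obtain ⟨hp1', hp2'⟩ := hp'
  refine ⟨?_, fun A hA => ?_⟩
  · rw [hUM.1 TW W mo p p', hp1, hp1', he.idem]
  · rw [Ultrafilter.eventually_mul]
    -- marks of the first factor
    have h1 : ∀ᶠ P in (p : Filter TW), ∀ (l : TW) (v v' : ℤ × ℤ) (r : TW),
        P = l * FreeMonoid.of (PL.m v v') * r →
          v = u ∧ (∃ t : ℤ, v' = u + t • d) ∧
            (mo l, mo r) ∈ {x : W × W | ∀ᶠ z in (e : Filter W), (x.1, x.2 * z) ∈ A} := by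
      refine hp2 _ ?_
      refine hA.mono fun x hx => ?_
      rw [← hq, Ultrafilter.eventually_mul] at hx
      exact hx
    -- marks of the second factor
    have h2 : ∀ᶠ P in (p : Filter TW), ∀ᶠ x' in (e : Filter W), ∀ᶠ r in (q : Filter W),
        (mo P * x', r) ∈ A := by
      have h3 : ∀ᶠ x in (e : Filter W), ∀ᶠ x' in (e : Filter W), ∀ᶠ r in (q : Filter W),
          (x * x', r) ∈ A := by
        have h4 := hA
        rw [← he.idem, Ultrafilter.eventually_mul] at h4
        exact h4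
      rw [← hp1, Ultrafilter.coe_map, eventually_map] at h3
      rw [← Ultrafilter.coe_map, hp1] at h3
      exact h3
    filter_upwards [h1, h2] with P hP1 hP2
    have h5 : ∀ᶠ Q in (p' : Filter TW), ∀ (l : TW) (v v' : ℤ × ℤ) (r : TW),
        P = l * FreeMonoid.of (PL.m v v') * r → (mo l, mo r * mo Q) ∈ A := by
      refine hE6 P p' (fun l _ _ r Q => (mo l, mo r * mo Q) ∈ A) fun l v v' r h => ?_
      have h6 := (hP1 l v v' r h).2.2
      rw [← hp1', Ultrafilter.coe_map, eventually_map] at h6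
      exact h6
    have h7 := hp2' {x : W × W | (mo P * x.1, x.2) ∈ A} hP2
    filter_upwards [h5, h7] with Q hQ1 hQ2
    intro l v v' r h
    rcases hE4 P Q l r v v' h with ⟨r', hr1, hr2⟩ | ⟨l', hl1, hl2⟩
    · obtain ⟨ha, hb, -⟩ := hP1 l v v' r' hr1
      refine ⟨ha, hb, ?_⟩
      rw [hr2, map_mul]
      exact hQ1 l v v' r' hr1
    · obtain ⟨ha, hb, hc⟩ := hQ2 l' v v' r hl1
      refine ⟨ha, hb, ?_⟩
      rw [hl2, map_mul]
      exact hc

theorem QM (hUM : UM_stmt) (hEM : EM_stmt) : QM_stmt := fun e q u d he hq =>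
  ⟨QM_isClosed e q u d, QM_emb hEM e q u d, fun p hp p' hp' =>
    QM_mul hUM hEM e q u d he hq p p' hp hp'⟩

end WZ
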